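import Pool.Agent.helper62.DP8.Spec

/-!
# Project sq8: (MP_e3efbc_co): module `RUN`: soundness of the certificates
-/

set_option autoImplicit false

namespace Pool.Agent.helper62.DP8

/-- Membership in `img`. -/
theorem RUN_mem {V : Type} [DecidableEq V] {n : ℕ} {v : ℕ → V} {T : ℕ} {u : V} :
    u ∈ img n v T ↔ ∃ x, x < n ∧ tb T x = true ∧ v x = u := by
  simp only [img, Finset.mem_image, Finset.mem_filter, Finset.mem_range, and_assoc]

theorem RUN_mem' {V : Type} [DecidableEq V] {n : ℕ} {v : ℕ → V}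
    (hv : ∀ x < n, ∀ y < n, v x = v y → x = y) {T x : ℕ} (hx : x < n) :
    v x ∈ img n v T ↔ tb T x = true := by
  rw [RUN_mem]
  constructor
  · rintro ⟨y, hy, hT, h⟩
    rw [← hv y hy x hx h]
    exact hT
  · intro h
    exact ⟨x, hx, h, rfl⟩

theorem RUN_era (hBIT : BIT_stmt) {V : Type} [DecidableEq V] {n : ℕ} {v : ℕ → V}
    (hv : ∀ x < n, ∀ y < n, v x = v y → x = y) {T a : ℕ} (ha : a < n) :
    img n v (dif T (Nat.shiftLeft 1 a)) = (img n v T).erase (v a) := by
  ext u
  rw [Finset.mem_erase, RUN_mem, RUN_mem]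
  have hd := hBIT.2.2.2.1
  have hs := hBIT.2.2.2.2.1
  constructor
  · rintro ⟨x, hx, hT, rfl⟩
    rw [hd, hs] at hT
    simp only [Bool.and_eq_true, Bool.not_eq_true', decide_eq_false_iff_not] at hT
    exact ⟨fun h => hT.2 (hv x hx a ha h), x, hx, hT.1, rfl⟩
  · rintro ⟨hne, x, hx, hT, rfl⟩
    refine ⟨x, hx, ?_, rfl⟩
    rw [hd, hs]
    simp only [Bool.and_eq_true, Bool.not_eq_true', decide_eq_false_iff_not]
    exact ⟨hT, fun h => hne (by rw [h])⟩

theorem RUN_era2 (hBIT : BIT_stmt) {V : Type} [DecidableEq V] {n : ℕ} {v : ℕ → V}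
    (hv : ∀ x < n, ∀ y < n, v x = v y → x = y) {T a b : ℕ} (ha : a < n) (hb : b < n) :
    img n v (dif T (Nat.lor (Nat.shiftLeft 1 a) (Nat.shiftLeft 1 b))) =
      ((img n v T).erase (v a)).erase (v b) := by
  ext u
  rw [Finset.mem_erase, Finset.mem_erase, RUN_mem, RUN_mem]
  have hd := hBIT.2.2.2.1
  have ho := hBIT.2.1
  have hs := hBIT.2.2.2.2.1
  constructor
  · rintro ⟨x, hx, hT, rfl⟩
    rw [hd, ho, hs, hs] at hT
    simp only [Bool.and_eq_true, Bool.not_eq_true', Bool.or_eq_false_iff,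
      decide_eq_false_iff_not] at hT
    exact ⟨fun h => hT.2.2 (hv x hx b hb h), fun h => hT.2.1 (hv x hx a ha h), x, hx, hT.1, rfl⟩
  · rintro ⟨hne, hne', x, hx, hT, rfl⟩
    refine ⟨x, hx, ?_, rfl⟩
    rw [hd, ho, hs, hs]
    simp only [Bool.and_eq_true, Bool.not_eq_true', Bool.or_eq_false_iff,
      decide_eq_false_iff_not]
    exact ⟨hT, fun h => hne' (by rw [h]), fun h => hne (by rw [h])⟩

theorem RUN_tbdif (hBIT : BIT_stmt) {T a i : ℕ} (h : tb (dif T a) i = true) : tb T i = true := by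
  rw [hBIT.2.2.2.1] at h
  simp only [Bool.and_eq_true] at h
  exact h.1

theorem RUN_lo (hBIT : BIT_stmt) (hORS : ORS_stmt) {V : Type} [DecidableEq V]
    (H : SimpleGraph V) {n K : ℕ} {v : ℕ → V} (hv : ∀ x < n, ∀ y < n, v x = v y → x = y)
    (hK : ∀ x < n, ∀ y < n, tb (ent K x) y = true → x ≠ y ∧ H.Adj (v x) (v y)) (T : ℕ) {x : ℕ}
    (hx : x < n) : cnt (Nat.land (ent K x) T) n ≤ dg H (img n v T) (v x) := by
  classical
  rw [hORS.2.1, dg]
  refine Finset.card_le_card_of_injOn v ?_ ?_
  · intro y hy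
    simp only [Finset.coe_filter, Finset.mem_range, Set.mem_ofPred_eq] at hy
    rw [hBIT.2.2.1] at hy
    simp only [Bool.and_eq_true] at hy
    simp only [Finset.coe_filter, Set.mem_ofPred_eq]
    exact ⟨(RUN_mem' hv hy.1).2 hy.2.2, (hK x hx y hy.1 hy.2.1).2⟩
  · intro y hy z hz h
    simp only [Finset.coe_filter, Finset.mem_range, Set.mem_ofPred_eq] at hy hz
    exact hv y hy.1 z hz.1 h

theorem RUN_up (hBIT : BIT_stmt) (hORS : ORS_stmt) {V : Type} [DecidableEq V]
    (H : SimpleGraph V) {n M : ℕ} {v : ℕ → V}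
    (hM : ∀ x < n, ∀ y < n, H.Adj (v x) (v y) → tb (ent M x) y = true) (T : ℕ) {x : ℕ}
    (hx : x < n) : dg H (img n v T) (v x) ≤ cnt (Nat.land (ent M x) T) n := by
  classical
  rw [hORS.2.1, dg]
  refine le_trans (Finset.card_le_card ?_) (Finset.card_image_le (f := v))
  intro u hu
  rw [Finset.mem_filter, RUN_mem] at hu
  obtain ⟨⟨y, hy, hT, rfl⟩, hA⟩ := hu
  rw [Finset.mem_image]
  refine ⟨y, ?_, rfl⟩
  rw [Finset.mem_filter, Finset.mem_range, hBIT.2.2.1]
  simp only [Bool.and_eq_true]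
  exact ⟨hy, hM x hx y hy hA, hT⟩

theorem RUN_ext {V : Type} {n : ℕ} {v : ℕ → V} (hv : ∀ x < n, ∀ y < n, v x = v y → x = y)
    (s : ℕ → ℕ) : ∃ σ : V → ℕ, ∀ x < n, σ (v x) = s x := by
  classical
  refine ⟨fun u => if h : ∃ x, x < n ∧ v x = u then s h.choose else 0, fun x hx => ?_⟩
  have h : ∃ y, y < n ∧ v y = v x := ⟨x, hx, rfl⟩
  simp only [dif_pos h]
  rw [hv _ h.choose_spec.1 x hx h.choose_spec.2]

theorem RUN (hBIT : BIT_stmt) (hORS : ORS_stmt) (hMON : MON_stmt) (hDEL : DEL_stmt)
    (hSAV : SAV_stmt) (hDBL : DBL_stmt) (hLST : LST_stmt) : RUN_stmt := by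
  intro V _ H n K M v hv hK hM ms
  induction ms with
  | nil =>
    intro T s σ _ _ h
    have h0 : T = 0 := by
      simp only [run] at h
      exact Nat.eq_of_beq_eq_true h
    subst h0
    have h1 : img n v 0 = ∅ := by
      ext u
      rw [RUN_mem]
      constructor
      · rintro ⟨x, _, h, _⟩
        rw [hBIT.2.2.2.2.2.1] at h
        exact absurd h (by simp)
      · intro h
        exact absurd h (Finset.notMem_empty u)
    rw [h1]
    exact hMON.2 V H σ
  | cons m l ih =>
    intro T s σ' hT hσ' h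
    obtain ⟨σ, hσ⟩ := RUN_ext hv s
    have hforce := hBIT.2.2.2.2.2.2
    refine hMON.1 V H (img n v T) σ σ' ?_ ?_
    · intro u hu
      rw [RUN_mem] at hu
      obtain ⟨x, hx, hTx, rfl⟩ := hu
      rw [hσ x hx]
      exact hσ' x hx hTx
    have lo : ∀ x < n, cnt (Nat.land (ent K x) T) n + s x ≤ dg H (img n v T) (v x) + σ (v x) := by
      intro x hx
      rw [hσ x hx]
      exact Nat.add_le_add_right (RUN_lo hBIT hORS H hv hK T hx) _
    have up : ∀ x < n, dg H (img n v T) (v x) + σ (v x) ≤ cnt (Nat.land (ent M x) T) n + s x := by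
      intro x hx
      rw [hσ x hx]
      exact Nat.add_le_add_right (RUN_up hBIT hORS H hM T hx) _
    cases m with
    | del x =>
      simp only [run, hforce, Bool.and_eq_true] at h
      obtain ⟨⟨h1, h2⟩, h3⟩ := h
      have hx := hT x h1
      have h2' := Nat.le_of_ble_eq_true h2
      refine hDEL V H (img n v T) σ (v x) ((RUN_mem' hv hx).2 h1) (le_trans h2' (lo x hx)) ?_
      rw [← RUN_era hBIT hv hx]
      exact ih _ s σ (fun i hi => hT i (RUN_tbdif hBIT hi)) (fun y hy _ => (hσ y hy).ge) h3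
    | sav x w =>
      simp only [run, hforce, Bool.and_eq_true] at h
      obtain ⟨⟨⟨⟨h1, h2⟩, h3⟩, h4⟩, h5⟩ := h
      have hx := hT x h1
      have hw := hT w h2
      have h4' := Nat.le_of_ble_eq_true h4
      refine hSAV V H (img n v T) σ (v x) (v w) ((RUN_mem' hv hx).2 h1) ((RUN_mem' hv hw).2 h2)
        (hK x hx w hw h3).2 ?_ ?_
      · have := lo x hx
        have := up w hw
        omega
      · rw [← RUN_era hBIT hv hx]
        refine ih _ _ _ (fun i hi => hT i (RUN_tbdif hBIT hi)) ?_ h5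
        intro y hy _
        rcases eq_or_ne y w with rfl | hyw
        · simp [hσ y hy]
        · have h6 : Nat.beq y w = false := by
            rw [Bool.eq_false_iff]
            intro h
            exact hyw (Nat.eq_of_beq_eq_true h)
          have h7 : v y ≠ v w := fun h => hyw (hv y hy w hw h)
          simp only [h6, cond_false, if_neg h7]
          exact (hσ y hy).ge
    | dbl a b w =>
      simp only [run, hforce, Bool.and_eq_true, Bool.not_eq_true'] at h
      obtain ⟨⟨⟨⟨⟨⟨⟨⟨⟨⟨h1, h2⟩, h3⟩, h4⟩, h5⟩, h6⟩, h7⟩, h8⟩, h9⟩, h10⟩, h11⟩ := h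
      have ha := hT a h1
      have hb := hT b h2
      have hw := hT w h3
      have h8' := Nat.le_of_ble_eq_true h8
      have h9' := Nat.le_of_ble_eq_true h9
      have h10' := Nat.le_of_ble_eq_true h10
      have hab : v a ≠ v b := by
        intro h
        have := hv a ha b hb h
        subst this
        simp at h4
      refine hDBL V H (img n v T) σ (v a) (v b) (v w) ((RUN_mem' hv ha).2 h1)
        ((RUN_mem' hv hb).2 h2) ((RUN_mem' hv hw).2 h3) hab (hK a ha w hw h5).2
        (hK b hb w hw h6).2 ?_ (le_trans h8' (lo a ha)) (le_trans h9' (lo b hb)) ?_ ?_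
      · intro h
        rw [hM a ha b hb h] at h7
        exact absurd h7 (by simp)
      · have := lo a ha
        have := lo b hb
        have := up w hw
        omega
      · rw [← RUN_era2 hBIT hv ha hb]
        refine ih _ _ _ (fun i hi => hT i (RUN_tbdif hBIT hi)) ?_ h11
        intro y hy _
        rcases eq_or_ne y w with rfl | hyw
        · simp [hσ y hy]
        · have h6 : Nat.beq y w = false := by
            rw [Bool.eq_false_iff]
            intro h
            exact hyw (Nat.eq_of_beq_eq_true h)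
          have h7 : v y ≠ v w := fun h => hyw (hv y hy w hw h)
          simp only [h6, cond_false, if_neg h7]
          exact (hσ y hy).ge
    | last x =>
      simp only [run, hforce, Bool.and_eq_true] at h
      obtain ⟨⟨h1, h2⟩, h3⟩ := h
      have hx := hT x h1
      have h2' := Nat.le_of_ble_eq_true h2
      refine hLST V H (img n v T) σ (v x) ((RUN_mem' hv hx).2 h1) ?_ ?_
      · rw [hσ x hx]
        exact h2'
      · rw [← RUN_era hBIT hv hx]
        refine ih _ _ _ (fun i hi => hT i (RUN_tbdif hBIT hi)) ?_ h3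
        intro y hy _
        rcases hb : tb (ent K x) y with _ | _
        · simp only [cond_false]
          rw [← hσ y hy]
          split_ifs <;> omega
        · simp only [cond_true]
          rw [if_pos (hK x hx y hy hb).2, hσ y hy]

end Pool.Agent.helper62.DP8
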